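import Pool.Agent.Helper38_LDP.Final

/-! DQ2 (MP_366d03_ag, Q2), module FLD: the field of degree `k d` and its conjugates. -/

namespace Pool.Agent.DQ2

open Polynomial
open Pool.Agent.LDP (AA KK Coef)

/-- exponent of `x_0^j x_i^(d-j)` -/
noncomputable def mon (n d : ℕ) (i : Fin (n + 2)) (j : ℕ) : Fin (n + 2) →₀ ℕ :=
  Finsupp.single 0 j + Finsupp.single i (d - j)

/-- the polynomial `F(T^k, 0, .., 1, .., 0)` (`1` at the place `i`) over the polynomial ring -/
noncomputable def pA (n d k : ℕ) (i : Fin (n + 2)) : (AA n d)[X] :=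
  ∑ j ∈ Finset.range (d + 1), C (Pool.Agent.LDP.Fin.cf n d (mon n d i j)) * X ^ (j * k)

/-- the same over the function field -/
noncomputable def pK (n d k : ℕ) (i : Fin (n + 2)) : (KK n d)[X] :=
  (pA n d k i).map (algebraMap (AA n d) (KK n d))

/-- algebraic closure of the function field -/
abbrev Kb (n d : ℕ) : Type := AlgebraicClosure (KK n d)

/-- FLD: the `k d` conjugates -/
def FldStmt : Prop := ∀ (n d k : ℕ) (i : Fin (n + 2)), 1 ≤ d → 1 ≤ k → i ≠ 0 →
  Irreducible (pK n d k i) ∧ (pK n d k i).Monic ∧ (pK n d k i).natDegree = k * d ∧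
  ∃ θ : Fin (k * d) → Kb n d, Function.Injective θ ∧
    (∀ a, aeval (θ a) (pK n d k i) = 0) ∧
    (∀ t : Kb n d, aeval t (pK n d k i) = 0 → ∃ a, θ a = t) ∧
    (∀ a b, ∃ σ : Kb n d ≃ₐ[KK n d] Kb n d, σ (θ a) = θ b) ∧
    (∀ (σ : Kb n d ≃ₐ[KK n d] Kb n d) (a), ∃ b, σ (θ a) = θ b)

namespace H42

theorem cf_top (n d : ℕ) (i : Fin (n + 2)) :
    Pool.Agent.LDP.Fin.cf n d (mon n d i d) = 1 := by
  unfold Pool.Agent.LDP.Fin.cf mon Pool.Agent.LDP.Fin.IsCoef
  rw [dif_neg]
  simp

theorem isCoef_mon (n d : ℕ) (i : Fin (n + 2)) (hi : i ≠ 0) (j : ℕ) (hj : j < d) :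
    Pool.Agent.LDP.Fin.IsCoef n d (mon n d i j) := by
  refine ⟨?_, ?_⟩
  · unfold mon
    rw [map_add, Finsupp.degree_single, Finsupp.degree_single]
    omega
  · intro h
    have := DFunLike.congr_fun h 0
    unfold mon at this
    simp [hi] at this
    omega

theorem cf_low (n d : ℕ) (i : Fin (n + 2)) (hi : i ≠ 0) (j : ℕ) (hj : j < d) :
    Pool.Agent.LDP.Fin.cf n d (mon n d i j) = MvPolynomial.X ⟨mon n d i j, isCoef_mon n d i hi j hj⟩ := by
  unfold Pool.Agent.LDP.Fin.cf
  rw [dif_pos (isCoef_mon n d i hi j hj)]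

theorem pA_coeff (n d k : ℕ) (hk : 1 ≤ k) (i : Fin (n + 2)) (e : ℕ) :
    (pA n d k i).coeff e = if k ∣ e ∧ e / k ≤ d then
      Pool.Agent.LDP.Fin.cf n d (mon n d i (e / k)) else 0 := by
  unfold pA
  rw [finsetSum_coeff]
  simp only [coeff_C_mul, coeff_X_pow]
  split_ifs with h
  · rw [Finset.sum_eq_single (e / k)]
    · rw [if_pos (Nat.div_mul_cancel h.1).symm, mul_one]
    · intro j _ hj
      rw [if_neg, mul_zero]
      rintro rfl
      apply hj
      exact (Nat.mul_div_cancel j hk).symm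
    · intro h2
      exfalso
      apply h2
      rw [Finset.mem_range]
      omega
  · apply Finset.sum_eq_zero
    intro j hj
    rw [Finset.mem_range] at hj
    rw [if_neg, mul_zero]
    rintro rfl
    apply h
    refine ⟨Dvd.intro_left j rfl, ?_⟩
    rw [Nat.mul_div_cancel j hk]
    omega

theorem pA_natDegree_le (n d k : ℕ) (i : Fin (n + 2)) :
    (pA n d k i).natDegree ≤ d * k := by
  unfold pA
  apply natDegree_sum_le_of_forall_le
  intro j hj
  rw [Finset.mem_range] at hj
  refine (natDegree_C_mul_X_pow_le _ _).trans ?_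
  exact Nat.mul_le_mul_right k (by omega)

theorem pA_coeff_top (n d k : ℕ) (hk : 1 ≤ k) (i : Fin (n + 2)) :
    (pA n d k i).coeff (d * k) = 1 := by
  rw [pA_coeff n d k hk]
  rw [if_pos, Nat.mul_div_cancel d hk, cf_top]
  exact ⟨Dvd.intro_left d rfl, by rw [Nat.mul_div_cancel d hk]⟩

theorem pA_natDegree (n d k : ℕ) (hk : 1 ≤ k) (i : Fin (n + 2)) :
    (pA n d k i).natDegree = d * k := by
  apply natDegree_eq_of_le_of_coeff_ne_zero (pA_natDegree_le n d k i)
  rw [pA_coeff_top n d k hk]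
  exact one_ne_zero

theorem pA_monic (n d k : ℕ) (hk : 1 ≤ k) (i : Fin (n + 2)) : (pA n d k i).Monic := by
  rw [Monic, leadingCoeff, pA_natDegree n d k hk, pA_coeff_top n d k hk]

theorem sq_zero {τ : Type} (v : τ) (p : MvPolynomial τ ℂ)
    (hp : p ∈ (RingHom.ker (MvPolynomial.constantCoeff : MvPolynomial τ ℂ →+* ℂ)) ^ 2) :
    MvPolynomial.constantCoeff (MvPolynomial.pderiv v p) = 0 := by
  rw [pow_two] at hp
  refine Submodule.mul_induction_on hp ?_ ?_
  · intro a ha b hb
    rw [RingHom.mem_ker] at ha hb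
    rw [Derivation.leibniz, map_add, smul_eq_mul, smul_eq_mul, map_mul, map_mul, ha, hb]
    simp
  · intro a b ha hb
    rw [map_add, map_add, ha, hb, add_zero]

theorem pA_irr (n d k : ℕ) (hd : 1 ≤ d) (hk : 1 ≤ k) (i : Fin (n + 2)) (hi : i ≠ 0) :
    Irreducible (pA n d k i) := by
  classical
  set 𝔪 := RingHom.ker (MvPolynomial.constantCoeff : AA n d →+* ℂ) with h𝔪
  have hpr : 𝔪.IsPrime := RingHom.ker_isPrime _
  have hE : (pA n d k i).IsEisensteinAt 𝔪 := by
    constructor
    · rw [(pA_monic n d k hk i).leadingCoeff]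
      intro h
      exact hpr.ne_top ((Ideal.eq_top_iff_one _).mpr h)
    · intro e he
      rw [pA_natDegree n d k hk] at he
      rw [pA_coeff n d k hk]
      split_ifs with h
      · have h2 : e / k < d := by
          rw [Nat.div_lt_iff_lt_mul (by omega)]
          exact he
        rw [cf_low n d i hi _ h2, h𝔪, RingHom.mem_ker]
        simp
      · exact zero_mem _
    · rw [pA_coeff n d k hk]
      rw [if_pos ⟨Dvd.intro_left 0 (by simp), by simp⟩]
      intro h
      rw [Nat.zero_div, cf_low n d i hi 0 (by omega)] at h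
      set v : Coef n d := ⟨mon n d i 0, isCoef_mon n d i hi 0 (by omega)⟩ with hv
      have h' : (MvPolynomial.X v : MvPolynomial (Coef n d) ℂ) ∈
        (RingHom.ker (MvPolynomial.constantCoeff : MvPolynomial (Coef n d) ℂ →+* ℂ)) ^ 2 := h
      have h2 := sq_zero v _ h'
      rw [MvPolynomial.pderiv_X_self, map_one] at h2
      exact one_ne_zero h2
  refine hE.irreducible hpr (pA_monic n d k hk i).isPrimitive ?_
  rw [pA_natDegree n d k hk]
  positivity

theorem fld : FldStmt := by
  intro n d k i hd hk hi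
  have hirr : Irreducible (pK n d k i) := by
    unfold pK
    rw [← Monic.irreducible_iff_irreducible_map_fraction_map (pA_monic n d k hk i)]
    exact pA_irr n d k hd hk i hi
  have hmon : (pK n d k i).Monic := (pA_monic n d k hk i).map _
  have hdeg : (pK n d k i).natDegree = k * d := by
    unfold pK
    rw [(pA_monic n d k hk i).natDegree_map, pA_natDegree n d k hk, mul_comm]
  refine ⟨hirr, hmon, hdeg, ?_⟩
  classical
  have hsep : (pK n d k i).Separable := hirr.separable
  have hcard : Fintype.card ((pK n d k i).rootSet (Kb n d)) = k * d := by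
    rw [card_rootSet_eq_natDegree hsep (IsAlgClosed.splits _), hdeg]
  let e : Fin (k * d) ≃ (pK n d k i).rootSet (Kb n d) := (Fintype.equivFinOfCardEq hcard).symm
  have hz : ∀ a, aeval ((e a : Kb n d)) (pK n d k i) = 0 := fun a =>
    (mem_rootSet.mp (e a).2).2
  have hall : ∀ t : Kb n d, aeval t (pK n d k i) = 0 → ∃ a, ((e a : Kb n d)) = t := by
    intro t ht
    refine ⟨e.symm ⟨t, mem_rootSet.mpr ⟨hmon.ne_zero, ht⟩⟩, ?_⟩
    simp
  refine ⟨fun a => (e a : Kb n d), ?_, hz, hall, ?_, ?_⟩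
  · intro a b h
    exact e.injective (Subtype.ext h)
  · intro a b
    have h1 : minpoly (KK n d) ((e a : Kb n d)) = pK n d k i :=
      (minpoly.eq_of_irreducible_of_monic hirr (hz a) hmon).symm
    have h2 : minpoly (KK n d) ((e b : Kb n d)) = pK n d k i :=
      (minpoly.eq_of_irreducible_of_monic hirr (hz b) hmon).symm
    have h3 : IsConjRoot (KK n d) ((e a : Kb n d)) ((e b : Kb n d)) := h1.trans h2.symm
    obtain ⟨σ, hσ⟩ := isConjRoot_iff_exists_algEquiv.mp h3
    refine ⟨σ.symm, ?_⟩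
    change σ.symm (e a : Kb n d) = (e b : Kb n d)
    rw [← hσ]
    exact σ.symm_apply_apply _
  · intro σ a
    obtain ⟨b, hb⟩ := hall (σ (e a : Kb n d)) (by
      rw [aeval_algHom_apply, hz a, map_zero])
    exact ⟨b, hb.symm⟩

end H42

end Pool.Agent.DQ2
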