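import Pool.Agent.Helper42_DQ2.FLD

/-! DQ2 (MP_366d03_ag, Q2), module TRM: each coefficient is transcendental over a relatively
algebraically closed subfield which contains all other coefficients. -/

namespace Pool.Agent.DQ2

open Polynomial
open Pool.Agent.LDP (AA KK Coef)

/-- TRM -/
def TrmStmt : Prop := ∀ (n d : ℕ) (v : Coef n d), ∃ E : Subfield (Kb n d),
  (∀ w : Coef n d, w ≠ v → algebraMap (AA n d) (Kb n d) (MvPolynomial.X w) ∈ E) ∧
  (∀ z : ℂ, algebraMap (AA n d) (Kb n d) (MvPolynomial.C z) ∈ E) ∧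
  (∀ p : (Kb n d)[X], p ≠ 0 → (∀ j, p.coeff j ∈ E) → ∀ t, p.eval t = 0 → t ∈ E) ∧
  algebraMap (AA n d) (Kb n d) (MvPolynomial.X v) ∉ E

namespace H42

theorem trm : TrmStmt := by
  intro n d v
  let x : Coef n d → Kb n d := fun w => algebraMap (AA n d) (Kb n d) (MvPolynomial.X w)
  have hinj : Function.Injective (algebraMap (AA n d) (Kb n d)) := by
    rw [IsScalarTower.algebraMap_eq (AA n d) (KK n d) (Kb n d)]
    exact (algebraMap (KK n d) (Kb n d)).injective.comp (IsFractionRing.injective (AA n d) (KK n d))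
  have hx : AlgebraicIndependent ℂ x := by
    have h1 : AlgebraicIndependent ℂ (MvPolynomial.X : Coef n d → AA n d) :=
      MvPolynomial.algebraicIndependent_X (Coef n d) ℂ
    exact h1.map' (f := IsScalarTower.toAlgHom ℂ (AA n d) (Kb n d)) hinj
  have ht : Transcendental (Algebra.adjoin ℂ (x '' {w | w ≠ v})) (x v) :=
    hx.transcendental_adjoin (by simp)
  let F : IntermediateField ℂ (Kb n d) := IntermediateField.adjoin ℂ (x '' {w | w ≠ v})
  have ht2 : Transcendental F (x v) := IntermediateField.transcendental_adjoin_iff.mpr ht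
  let E : IntermediateField F (Kb n d) := algebraicClosure F (Kb n d)
  have hF : ∀ y : Kb n d, y ∈ F → y ∈ E := by
    intro y hy
    exact E.algebraMap_mem (⟨y, hy⟩ : F)
  refine ⟨E.toSubfield, ?_, ?_, ?_, ?_⟩
  · intro w hw
    exact hF _ (IntermediateField.subset_adjoin _ _ ⟨w, hw, rfl⟩)
  · intro z
    refine hF _ ?_
    have : algebraMap (AA n d) (Kb n d) (MvPolynomial.C z) = algebraMap ℂ (Kb n d) z := by
      rw [IsScalarTower.algebraMap_apply ℂ (AA n d) (Kb n d)]
      rfl
    rw [this]
    exact F.algebraMap_mem z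
  · intro p hp hc t hpt
    change t ∈ algebraicClosure F (Kb n d)
    rw [mem_algebraicClosure_iff]
    have h1 : IsAlgebraic E t := by
      have hl : p ∈ Polynomial.lifts (algebraMap E (Kb n d)) := by
        rw [Polynomial.lifts_iff_coeff_lifts]
        intro j
        exact ⟨⟨p.coeff j, hc j⟩, rfl⟩
      obtain ⟨q, hq⟩ := hl
      refine ⟨q, ?_, ?_⟩
      · rintro rfl
        apply hp
        rw [← hq]
        simp
      · have hq' : q.map (algebraMap E (Kb n d)) = p := hq
        rw [← hpt, ← hq', eval_map_algebraMap]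
    have h2 : Algebra.IsAlgebraic F E := algebraicClosure.isAlgebraic F (Kb n d)
    exact h1.restrictScalars F
  · intro h
    have h1 : x v ∈ algebraicClosure F (Kb n d) := h
    rw [mem_algebraicClosure_iff] at h1
    exact ht2 h1

end H42

end Pool.Agent.DQ2
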